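import Pool.Agent.L0h86.JR.Stm
import Pool.Agent.L0h2.P.DENJ
import Pool.Agent.N218.GB.Asy

/-! # Project JR: the law in a class -/

set_option autoImplicit false
set_option linter.unusedVariables false

open scoped Classical
open Finset Filter
open scoped Topology

namespace Pool.Agent.L0h2.JR

open Pool.Agent.Y703
open Pool.Agent.Y703.CX (sm la jj XX eL zz kk eL_tendsto logX_eq HH ev_eL one_le_exp
  HH_ge HH_le HH_pos kk_ge kk_le X_pos one_add_log lin_le kap zz_ge zz_pos kap_nonneg kap_pow kap_le)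
open Pool.Agent.Y703.CQ (nr)
open Pool.Agent.N973.ND (Pr uu ty SA)
open Pool.Agent.N916.GB (eta Po)
open Pool.Agent.L0h74.EV (SE Cl n2 NdE)
open Pool.Agent.L0h74.EV.KEY (ph CC)
open Pool.Agent.L0h74.AP (Cp)
open Pool.Agent.N218.GB.Asy (Sml sml_of sml_add sml_eps cmp)
open Pool.Agent.L0h74.KD.Den (sml_many sml_cut sml_coll SA_card)
open Pool.Agent.L0h74.EV.Den (SE_sub)
open Pool.Agent.L0h2.P (RK R0 R0_pos R0_le SE_disj sm_un la_un card_img B1 card_B1 mem_SA sml_shift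
  sml_sum sml_mainJ)
open Pool.Agent.L0h86.JR

/-- few large primes in a class -/
noncomputable def few (q c M V Y z : ℕ) : Finset (Finset ℕ) :=
  (SA Y).filter fun S => ((la z S).filter fun p => p % q = c).card < M * (sm z S).card + V

/-- the direct exceptional sets -/
noncomputable def A2 {n : ℕ} (u : ℕ) (cl : Fin n → ℕ) (c7 M V Y z H k : ℕ) : Finset (Finset ℕ) :=
  ((((SA Y).filter fun S => k < S.card) ∪
    ((SA Y).filter fun S => ¬ Set.InjOn (jj H) (la z S : Set ℕ))) ∪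
    (few 4 3 M (V + 1) Y z ∪ few (7 * u) c7 0 1 Y z)) ∪
    univ.biUnion fun r => few (7 * u) (cl r) M V Y z

section
variable {t n : ℕ} {s : Fin t → Sr} {u a : ℕ} {cl : Fin n → ℕ} {x : Fin t → Fin n → ZMod 2}

theorem out_subR (hy : HyR s u a cl x) {c7 : ℕ}
    (hc7 : ∀ q, Pr q → q % (7 * u) = c7 → uu q = 0 ∧ nr q 7 = 1) (hN : S_NDR)
    {V M X z H k : ℕ} (hz : u ≤ z) :
    ((SE u a X) \
      ((RK u a X z H k (KQR cl V M)).filter fun S => NdR s (sm z S) (la z S))) ⊆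
    A2 u cl c7 M V (X * ∏ p ∈ R0 u, p) z H k ∪
      (SE u a X).filter fun S => S ∪ R0 u ∈ B1 (X * ∏ p ∈ R0 u, p) z H k := by
  intro S hS
  rw [Finset.mem_sdiff] at hS
  obtain ⟨h1', h2⟩ := hS
  have hd := SE_disj hy.cp.cop h1'
  have hP := R0_pos u
  have hXX : X ≤ X * ∏ p ∈ R0 u, p := Nat.le_mul_of_pos_right _ hP
  have h0 := mem_SA.1 (SE_sub X h1')
  have h1 : S ∈ SA (X * ∏ p ∈ R0 u, p) := mem_SA.2 ⟨h0.1, h0.2.trans hXX⟩
  have h1u : S ∪ R0 u ∈ SA (X * ∏ p ∈ R0 u, p) := by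
    refine mem_SA.2 ⟨fun p hp => ?_, ?_⟩
    · rcases mem_union.1 hp with h | h
      · exact h0.1 p h
      · exact (mem_filter.1 h).2
    · rw [prod_union hd]
      exact Nat.mul_le_mul_right _ h0.2
  by_contra hc
  rw [mem_union, not_or] at hc
  obtain ⟨c1, c2⟩ := hc
  unfold A2 few at c1
  simp only [mem_union, mem_filter, mem_biUnion, mem_univ, true_and, not_or, not_exists] at c1
  obtain ⟨⟨⟨a1, a2⟩, a3, a5⟩, a4⟩ := c1
  rw [mem_filter] at c2
  have c3 : S ∪ R0 u ∉ B1 (X * ∏ p ∈ R0 u, p) z H k := fun h => c2 ⟨h1', h⟩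
  unfold B1 at c3
  simp only [mem_union, mem_filter, not_or] at c3
  obtain ⟨⟨b1, b2⟩, b3⟩ := c3
  have d1 : S.card ≤ k := by
    by_contra h
    exact a1 ⟨h1, not_le.1 h⟩
  have d1' : (S ∪ R0 u).card ≤ k := by
    by_contra h
    exact b1 ⟨h1u, not_le.1 h⟩
  have d2 : Set.InjOn (jj H) (la z S : Set ℕ) := by
    by_contra h
    exact a2 ⟨h1, h⟩
  have d3 : (∏ p ∈ sm z S, p) * ∏ p ∈ la z S, XX H (jj H p) ≤ X := by
    by_contra h
    apply b2
    refine ⟨h1u, d1', ?_⟩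
    have hdd : Disjoint (sm z S) (R0 u) := hd.mono_left (filter_subset _ _)
    rw [sm_un hz, la_un hz, prod_union hdd]
    push Not at h
    calc X * ∏ p ∈ R0 u, p < ((∏ p ∈ sm z S, p) * ∏ p ∈ la z S, XX H (jj H p)) * ∏ p ∈ R0 u, p :=
          Nat.mul_lt_mul_of_pos_right h hP
      _ = _ := by ring
  have e3 : M * (sm z S).card + (V + 1) ≤ ((la z S).filter fun p => p % 4 = 3).card := by
    by_contra h
    exact a3 ⟨h1, not_le.1 h⟩
  have e5 : 0 * (sm z S).card + 1 ≤ ((la z S).filter fun p => p % (7 * u) = c7).card := by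
    by_contra h
    exact a5 ⟨h1, not_le.1 h⟩
  have d4 : NdR s (sm z S) (la z S) := by
    refine hN t s u hy.h56 hy.cp.pos (fun l v hv => hy.W l v hv) (sm z S) (la z S)
      (fun p hp => h0.1 p (mem_filter.1 hp).1) (fun p hp => h0.1 p (mem_filter.1 hp).1) ?_ ?_ ?_
    · by_contra h
      apply b3
      refine ⟨h1u, d1', ?_⟩
      rwa [sm_un hz, la_un hz]
    · obtain ⟨p, hp⟩ := card_pos.1 (show 0 < ((la z S).filter fun p => p % 4 = 3).card by omega)
      exact ⟨p, (mem_filter.1 hp).1, (mem_filter.1 hp).2⟩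
    · obtain ⟨p, hp⟩ := card_pos.1
        (show 0 < ((la z S).filter fun p => p % (7 * u) = c7).card by omega)
      have hpl := (mem_filter.1 hp).1
      exact ⟨p, hpl, hc7 p (h0.1 p (mem_filter.1 hpl).1) (mem_filter.1 hp).2⟩
  apply h2
  rw [mem_filter]
  refine ⟨?_, d4⟩
  unfold RK
  rw [mem_filter]
  refine ⟨h1', d2, d1, d3, ?_, fun r => ?_⟩
  · rw [card_img d2]
    have h4 : 4 ∣ 7 * u := ((by norm_num : 4 ∣ 56).trans hy.h56).mul_left 7
    have e : ((la z S).filter fun p => (ph u H p).2 % 4 = 3).card =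
        ((la z S).filter fun p => p % 4 = 3).card := by
      congr 1
      refine filter_congr fun p _ => ?_
      show p % (7 * u) % 4 = 3 ↔ _
      rw [Nat.mod_mod_of_dvd _ h4]
    rw [e]
    omega
  · rw [card_img d2]
    by_contra h
    exact a4 r ⟨h1, not_le.1 h⟩

lemma card_BR (hy : HyR s u a cl x) (Y X z H k : ℕ) :
    ((SE u a X).filter fun S => S ∪ R0 u ∈ B1 Y z H k).card ≤ (B1 Y z H k).card := by
  refine card_le_card_of_injOn (fun S => S ∪ R0 u) (fun S hS => (mem_filter.1 hS).2) ?_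
  intro S hS T hT hST
  rw [coe_filter] at hS hT
  have h1 := SE_disj hy.cp.cop hS.1
  have h2 := SE_disj hy.cp.cop hT.1
  have h3 : (S ∪ R0 u) \ R0 u = (T ∪ R0 u) \ R0 u := by
    have : S ∪ R0 u = T ∪ R0 u := hST
    rw [this]
  rwa [union_sdiff_cancel_right h1, union_sdiff_cancel_right h2] at h3

end

lemma amR_mem {t : ℕ} (β : Fin t → Bool) : 0 ≤ amR β ∧ amR β ≤ 1 := by
  obtain ⟨m0, m1⟩ := Pool.Agent.N218.GB.Asy.eta_mem
  unfold amR
  constructor
  · exact prod_nonneg fun l _ => by split_ifs <;> linarith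
  · exact prod_le_one (fun l _ => by split_ifs <;> linarith) (fun l _ => by split_ifs <;> linarith)

lemma card_A2 {n : ℕ} (u : ℕ) (cl : Fin n → ℕ) (c7 M V Y z H k : ℕ) :
    ((A2 u cl c7 M V Y z H k).card : ℝ) ≤ ((((((SA Y).filter fun S => k < S.card).card : ℝ) +
    (((SA Y).filter fun S => ¬ Set.InjOn (jj H) (la z S : Set ℕ)).card : ℝ)) +
    (((few 4 3 M (V + 1) Y z).card : ℝ) + ((few (7 * u) c7 0 1 Y z).card : ℝ))) +
    ∑ r : Fin n, ((few (7 * u) (cl r) M V Y z).card : ℝ)) := by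
  have h1 : (A2 u cl c7 M V Y z H k).card ≤ ((((SA Y).filter fun S => k < S.card).card +
    ((SA Y).filter fun S => ¬ Set.InjOn (jj H) (la z S : Set ℕ)).card) +
    ((few 4 3 M (V + 1) Y z).card + (few (7 * u) c7 0 1 Y z).card)) +
    ∑ r : Fin n, (few (7 * u) (cl r) M V Y z).card := by
    unfold A2
    refine (card_union_le _ _).trans (Nat.add_le_add ?_ card_biUnion_le)
    exact (card_union_le _ _).trans (Nat.add_le_add (card_union_le _ _) (card_union_le _ _))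
  exact_mod_cast h1

/-- **The joint law in a class.** -/
theorem t_DR (hKY : S_KYR) (hFJ : S_FEWR) (hC7 : S_CL7) (hN : S_NDR) : S_DR := by
  intro t n s u a cl x hy β ε hε
  obtain ⟨C, hC1, hkey⟩ := hKY
  obtain ⟨V, M, K, hkey⟩ := hkey t n s u a cl x hy (ε / 2) (by linarith)
  obtain ⟨c7, hc7a, hc7b, hc7⟩ := hC7 u hy.h56 hy.cp.pos
  have hPR := R0_pos u
  set P : ℕ := ∏ p ∈ R0 u, p with hP
  -- the exceptional sets
  have s1 := sml_many Pool.Agent.L0h74.KD.CNT.t_CNT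
  have s2 := sml_cut Pool.Agent.L0h74.KD.CNT.t_CNT
  have s3 := sml_coll Pool.Agent.L0h74.KD.CNT.t_CNT
  have s4 : Sml fun Y => ((few 4 3 M (V + 1) Y (zz Y)).card : ℝ) :=
    sml_eps (hFJ 4 3 M (V + 1) (by norm_num) (by norm_num))
  have s4' : Sml fun Y => ((few (7 * u) c7 0 1 Y (zz Y)).card : ℝ) :=
    sml_eps (hFJ (7 * u) c7 0 1 hc7a hc7b)
  have s5 := sml_eps Pool.Agent.L0h74.EV.BAD.t_BADE
  have s6 := sml_sum (univ : Finset (Fin n)) (fun r Y =>
      ((few (7 * u) (cl r) M V Y (zz Y)).card : ℝ))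
    fun r _ => sml_eps (hFJ (7 * u) (cl r) M V (hy.clc r).1 (hy.clc r).2)
  have s8 := sml_mainJ u K hC1
  have stot := sml_shift (sml_add (sml_add (sml_add (sml_add (sml_add s1 s3) (sml_add s4 s4')) s6)
    (sml_add (sml_add s1 s2) s5)) s8) hPR
  have hev := stot (ε / 2) (by linarith)
  have ht : Tendsto (fun X : ℕ => X * P) atTop atTop :=
    tendsto_atTop_mono (fun X => Nat.le_mul_of_pos_right X hPR) tendsto_id
  filter_upwards [hev, ht.eventually (ev_eL (2 * u + 1)), eventually_ge_atTop 1] with X hX hl' hX1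
  set Y : ℕ := X * P with hY
  have hu0 : (0 : ℝ) ≤ u := Nat.cast_nonneg _
  have hl : 1 ≤ eL Y := by linarith
  have hl0 : 0 < eL Y := by linarith
  have hXY : X ≤ Y := Nat.le_mul_of_pos_right _ hPR
  have hXR : (1 : ℝ) ≤ X := by exact_mod_cast hX1
  have hXYR : (X : ℝ) ≤ Y := by exact_mod_cast hXY
  have hlogXY : Real.log X ≤ Real.log Y := Real.log_le_log (by linarith) hXYR
  have hNN : (HH Y : ℝ) * Real.log X < CX.NN Y := by
    refine lt_of_le_of_lt (mul_le_mul_of_nonneg_left hlogXY (Nat.cast_nonneg _)) ?_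
    unfold CX.NN
    push_cast
    exact Nat.lt_floor_add_one _
  have huz : u ≤ zz Y := by
    have h1 := zz_ge hl
    have h2 := Real.add_one_le_exp (eL Y ^ 3)
    have h3 : eL Y ≤ eL Y ^ 3 := le_self_pow₀ hl (by norm_num)
    have h4 : (u : ℝ) ≤ zz Y := by linarith
    exact_mod_cast h4
  have hmain := hkey β X (zz Y) (HH Y) (kk Y) (CX.NN Y) (kap C Y) hX1 (HH_pos hl0) huz
    (kap_nonneg hC1 Y) (kap_pow hC1 hl) hNN
  set RKs := RK u a X (zz Y) (HH Y) (kk Y) (KQR cl V M) with hRK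
  set T := RKs.filter fun S => NdR s (sm (zz Y) S) (la (zz Y) S) with hT
  have hTG : RKs.filter (fun S => NdR s (sm (zz Y) S) (la (zz Y) S) ∧ PatR s β S) =
      T.filter (PatR s β) := by
    rw [hT, filter_filter]
  rw [hTG] at hmain
  have hTR : T ⊆ SE u a X := by
    intro S hS
    rw [hT, mem_filter, hRK, RK, mem_filter] at hS
    exact hS.1.1
  have hRS : (RKs.card : ℝ) ≤ X := by
    exact_mod_cast (card_le_card ((filter_subset _ _).trans (SE_sub X))).trans (SA_card X)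
  have hcmp := cmp (PatR s β) T (SE u a X) hTR (amR β) (amR_mem β).1 (amR_mem β).2
  have hout : ((SE u a X \ T).card : ℝ) ≤
      ((A2 u cl c7 M V Y (zz Y) (HH Y) (kk Y)).card : ℝ) +
      ((B1 Y (zz Y) (HH Y) (kk Y)).card : ℝ) := by
    have g := card_le_card (out_subR (V := V) (M := M) (X := X) (H := HH Y)
      (k := kk Y) hy (fun q h1 h2 => ⟨(hc7 q h1 h2).1, (hc7 q h1 h2).2.1⟩) hN huz)
    rw [← hRK, ← hT, ← hP, ← hY] at g
    have g2 := (g.trans (card_union_le _ _)).trans (Nat.add_le_add_left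
      (card_BR hy Y X (zz Y) (HH Y) (kk Y)) _)
    exact_mod_cast g2
  have hA2 := card_A2 u cl c7 M V Y (zz Y) (HH Y) (kk Y)
  have hB1 := card_B1 Y (zz Y) (HH Y) (kk Y)
  have g1 : ε / 2 * (RKs.card : ℝ) ≤ ε / 2 * X :=
    mul_le_mul_of_nonneg_left hRS (by linarith)
  have g3 : (9 * ((u : ℝ) * (CX.NN Y : ℝ)) + 9) ^ kk Y *
      (3 ^ (K * (kk Y ^ 2 + 1)) * kap C Y) * (X * (1 + Real.log X)) ≤
      (9 * ((u : ℝ) * (CX.NN Y : ℝ)) + 9) ^ kk Y *
      (3 ^ (K * (kk Y ^ 2 + 1)) * kap C Y) * (Y * (1 + Real.log Y)) := by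
    have h1 := kap_nonneg hC1 Y
    have h2 := Real.log_natCast_nonneg X
    have h3 := Real.log_natCast_nonneg Y
    gcongr
  refine hcmp.trans ?_
  refine (add_le_add hmain (hout.trans (add_le_add hA2 hB1))).trans ?_
  linarith

end Pool.Agent.L0h2.JR
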